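import Pool.Agent.Helper71.Nik.Main
import Pool.Agent.Helper71.Nik.Diamond

/-! Jensen's diamond principle gives a minimally generated Boolean algebra with the Nikodym
property but without the strong Nikodym property. -/

namespace Pool.Agent.Results.MP_a0ad85_lc.DiamondCounterexample

open Pool.Agent.Helper71.Nik

/-- Under diamond there is an infinite minimally generated Boolean algebra that has the Nikodym
property and does not have the strong Nikodym property. -/
theorem result (h : Diamond) :
    ∃ (A : Type) (_ : BooleanAlgebra A), Infinite A ∧ MinimallyGenerated A ∧ Nikodym A ∧
      ¬ StrongNikodym A := by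
  obtain ⟨g, hg⟩ := guess_of_diamond h
  exact main_abstract countable_Iio_om cof_om g hg

end Pool.Agent.Results.MP_a0ad85_lc.DiamondCounterexample
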