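import Pool.Agent.Sc85.Final

/-!
MP_a0ad85: it is consistent that some infinite minimally generated Boolean algebra has the Nikodym
property and fails the strong Nikodym property (no hypothesis beyond ZFC is used).

`Holds B` (file `Pool/Agent/Sc85/Defs.lean`) says, for a complete Boolean algebra `B`, that such a
Boolean algebra exists in the Boolean extension of the universe by `B`: all truth values are
computed with infima and suprema in `B`; subsets, sequences of measures, exhausting sequences of
subsets and chains of subalgebras are arbitrary elements of the extension.

The first part says that `Holds Prop` is the negated form of the question.  The second part says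
that `Holds B` for some nontrivial complete Boolean algebra `B`: the algebra of the regular open
sets of the space of all functions from `ω₁` to a set, with the topology given by the countable
initial segments.
-/

namespace Pool.Agent.Results.MP_a0ad85_lc.Extension

open Pool.Agent.Sc85 Pool.Agent.Helper71.Nik Pool.Agent.SigF
open Pool.Agent.Fo65 (RO)

theorem result :
    (Holds Prop ↔ ∃ (A : Type) (_ : BooleanAlgebra A),
      Infinite A ∧ MinimallyGenerated A ∧ Nikodym A ∧ ¬ StrongNikodym A) ∧
    Nontrivial (RO (Br (Om → ℕ → ℕ → ℝ))) ∧ Holds (RO (Br (Om → ℕ → ℕ → ℝ))) :=
  ⟨holds_prop_iff, inferInstance, holds_forced⟩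

end Pool.Agent.Results.MP_a0ad85_lc.Extension
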